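import Pool.Agent.W172.MK.Stm

/-! Separation of colours (MP_65c995_pr, part METRIC). -/

set_option autoImplicit false

open MeasureTheory ProbabilityTheory Filter Topology

namespace Pool.Agent.W397.MK

open Pool.Agent.W172.MK

theorem metric_sep : P_METRIC := by
  intro S C _ _ _ _ col hcol
  have hK : IsClosed {p : S × S | col p.1 ≠ col p.2} := by
    have h1 : Continuous (fun p : S × S => (col p.1, col p.2)) :=
      (hcol.comp continuous_fst).prodMk (hcol.comp continuous_snd)
    have h2 : IsClosed {q : C × C | q.1 ≠ q.2} := isClosed_discrete _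
    exact h2.preimage h1
  have hKc : IsCompact {p : S × S | col p.1 ≠ col p.2} := hK.isCompact
  rcases Set.eq_empty_or_nonempty {p : S × S | col p.1 ≠ col p.2} with he | hne
  · refine ⟨1, one_pos, fun x y hxy => ?_⟩
    have : (x, y) ∈ {p : S × S | col p.1 ≠ col p.2} := hxy
    rw [he] at this
    exact absurd this (Set.notMem_empty _)
  · obtain ⟨p, hp, hmin⟩ := hKc.exists_isMinOn hne
      (f := fun p : S × S => dist p.1 p.2) continuous_dist.continuousOn
    refine ⟨dist p.1 p.2, dist_pos.2 fun h => hp (congrArg col h), fun x y hxy => ?_⟩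
    exact hmin (show (x, y) ∈ {p : S × S | col p.1 ≠ col p.2} from hxy)

end Pool.Agent.W397.MK
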